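import Pool.Agent.Helper40_ZOL.Stmts

/-!
# ZOL, row PREL: what planarity gives for the third move
-/

set_option autoImplicit false

namespace Pool.Agent.ZOL.H77

open Finset Pool.Agent.ZOL

theorem sub_append (S : Finset ℕ) (u v : Word) : sub S (u ++ v) = sub S u ++ sub S v :=
  List.filter_append _ _

theorem sub_nil (S : Finset ℕ) : sub S [] = [] := rfl

theorem mem_sub {S : Finset ℕ} {w : Word} {l : Letter} : l ∈ sub S w ↔ l ∈ w ∧ l.1 ∈ S := by
  simp [sub]

theorem mem_labels {w : Word} {x : ℕ} : x ∈ labels w ↔ ∃ l ∈ w, l.1 = x := by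
  simp [labels]

theorem labels_append (u v : Word) : labels (u ++ v) = labels u ∪ labels v := by
  simp [labels]

/-- the shadow of a letter -/
def pr (l : Letter) : ℕ × Bool := (l.1, l.2.1)

theorem shadow_append (u v : Word) : shadow (u ++ v) = shadow u ++ shadow v := by
  simp [shadow]

theorem shadow_eq (u : Word) : shadow u = u.map pr := rfl

/-- sums over a word by crossings -/
theorem sum_labels (g : Letter → ℤ) (L : Word) (Λ : Finset ℕ) (h : labels L ⊆ Λ) :
    (L.map g).sum = ∑ x ∈ Λ, ((sub {x} L).map g).sum := by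
  induction L with
  | nil => simp [sub]
  | cons l L ih =>
    have hl : l.1 ∈ Λ := h (mem_labels.2 ⟨l, List.mem_cons_self, rfl⟩)
    have hL : labels L ⊆ Λ := by
      intro x hx
      obtain ⟨l', h1, h2⟩ := mem_labels.1 hx
      exact h (mem_labels.2 ⟨l', List.mem_cons_of_mem _ h1, h2⟩)
    rw [List.map_cons, List.sum_cons, ih hL]
    have key : ∀ x ∈ Λ, ((sub {x} (l :: L)).map g).sum =
        (if l.1 = x then g l else 0) + ((sub {x} L).map g).sum := by
      intro x _
      by_cases hx : l.1 = x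
      · simp [sub, hx]
      · simp [sub, hx]
    rw [sum_congr rfl key, sum_add_distrib, sum_ite_eq, if_pos hl]

theorem between_eq (c : ℕ) (P Q R : Shadow) (s s' : Bool) (hP : ∀ x ∈ P, x.1 ≠ c)
    (hQ : ∀ x ∈ Q, x.1 ≠ c) : between c (P ++ (c, s) :: (Q ++ (c, s') :: R)) = Q := by
  unfold between
  rw [List.dropWhile_append_of_pos (fun x hx => by simpa using hP x hx)]
  have h1 : ((c, s) :: (Q ++ (c, s') :: R)).dropWhile (fun x => decide (x.1 ≠ c)) =
      (c, s) :: (Q ++ (c, s') :: R) := by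
    rw [List.dropWhile_cons]
    simp
  rw [h1, List.tail_cons, List.takeWhile_append_of_pos (fun x hx => by simpa using hQ x hx)]
  simp

theorem len_top (x a b : ℕ) (t m d e : Bool) : (sub {x} (topPair a b t m d e)).length =
    (if a = x then 1 else 0) + (if b = x then 1 else 0) := by
  cases t <;> simp only [topPair, sub, mem_singleton] <;>
    by_cases h1 : a = x <;> by_cases h2 : b = x <;> simp [h1, h2]

theorem len_mid (x a c : ℕ) (t m d e : Bool) : (sub {x} (midPair a c t m d e)).length =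
    (if a = x then 1 else 0) + (if c = x then 1 else 0) := by
  cases m <;> simp only [midPair, sub, mem_singleton] <;>
    by_cases h1 : a = x <;> by_cases h2 : c = x <;> simp [h1, h2]

theorem len_bot (x b c : ℕ) (t m d e : Bool) : (sub {x} (botPair b c t m d e)).length =
    (if b = x then 1 else 0) + (if c = x then 1 else 0) := by
  cases d <;> simp only [botPair, sub, mem_singleton] <;>
    by_cases h1 : b = x <;> by_cases h2 : c = x <;> simp [h1, h2]

theorem split_cases {l₀ l₁ l₂ l₃ : Word} {y z : Letter} (h : l₀ ++ l₁ ++ l₂ ++ l₃ = [y, z]) :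
    (l₀ = [y, z] ∧ l₁ = [] ∧ l₂ = [] ∧ l₃ = []) ∨ (l₀ = [y] ∧ l₁ = [z] ∧ l₂ = [] ∧ l₃ = []) ∨
    (l₀ = [y] ∧ l₁ = [] ∧ l₂ = [z] ∧ l₃ = []) ∨ (l₀ = [y] ∧ l₁ = [] ∧ l₂ = [] ∧ l₃ = [z]) ∨
    (l₀ = [] ∧ l₁ = [y, z] ∧ l₂ = [] ∧ l₃ = []) ∨ (l₀ = [] ∧ l₁ = [y] ∧ l₂ = [z] ∧ l₃ = []) ∨
    (l₀ = [] ∧ l₁ = [y] ∧ l₂ = [] ∧ l₃ = [z]) ∨ (l₀ = [] ∧ l₁ = [] ∧ l₂ = [y, z] ∧ l₃ = []) ∨
    (l₀ = [] ∧ l₁ = [] ∧ l₂ = [y] ∧ l₃ = [z]) ∨ (l₀ = [] ∧ l₁ = [] ∧ l₂ = [] ∧ l₃ = [y, z]) := by
  rcases l₀ with _ | ⟨p, _ | ⟨q, l₀⟩⟩ <;> rcases l₁ with _ | ⟨p₁, _ | ⟨q₁, l₁⟩⟩ <;>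
    rcases l₂ with _ | ⟨p₂, _ | ⟨q₂, l₂⟩⟩ <;> simp_all

/-- the sum of `eps` over the third slot -/
theorem eps_slot {l₀ l₁ l₂ l₃ : Word} {y : Letter} (h : l₀ ++ l₁ ++ l₂ ++ l₃ = [y, bar y]) :
    (l₂.map fun l => eps (pr l)).sum = J l₂ l₀ + J l₂ l₁ + J l₂ l₃ := by
  obtain ⟨n, s, o⟩ := y
  rcases split_cases h with ⟨rfl, rfl, rfl, rfl⟩ | ⟨rfl, rfl, rfl, rfl⟩ | ⟨rfl, rfl, rfl, rfl⟩ |
    ⟨rfl, rfl, rfl, rfl⟩ | ⟨rfl, rfl, rfl, rfl⟩ | ⟨rfl, rfl, rfl, rfl⟩ | ⟨rfl, rfl, rfl, rfl⟩ |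
    ⟨rfl, rfl, rfl, rfl⟩ | ⟨rfl, rfl, rfl, rfl⟩ | ⟨rfl, rfl, rfl, rfl⟩ <;>
    cases s <;> cases o <;> simp [J, bar, eps, pr]

/-- the weighted sum -/
theorem wt_slot {l₀ l₁ l₂ l₃ : Word} {y : Letter} (h : l₀ ++ l₁ ++ l₂ ++ l₃ = [y, bar y]) :
    ((l₀ ++ l₁ ++ l₂ ++ l₃).map fun l => eps (pr l) * (if pr l ∈ shadow l₁ then 2 else 0) *
      (if (l.1, !l.2.1) ∈ shadow l₂ then 2 else 0)).sum = -4 * J l₂ l₁ := by
  obtain ⟨n, s, o⟩ := y
  rcases split_cases h with ⟨rfl, rfl, rfl, rfl⟩ | ⟨rfl, rfl, rfl, rfl⟩ | ⟨rfl, rfl, rfl, rfl⟩ |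
    ⟨rfl, rfl, rfl, rfl⟩ | ⟨rfl, rfl, rfl, rfl⟩ | ⟨rfl, rfl, rfl, rfl⟩ | ⟨rfl, rfl, rfl, rfl⟩ |
    ⟨rfl, rfl, rfl, rfl⟩ | ⟨rfl, rfl, rfl, rfl⟩ | ⟨rfl, rfl, rfl, rfl⟩ <;>
    cases s <;> cases o <;> simp [J, bar, eps, pr, shadow]

theorem mem_shadow_sub {u : Word} {x : ℕ} {s : Bool} :
    (x, s) ∈ shadow (sub {x} u) ↔ (x, s) ∈ shadow u := by
  simp only [shadow, List.mem_map, mem_sub, mem_singleton]
  constructor
  · rintro ⟨l, ⟨h1, _⟩, h2⟩
    exact ⟨l, h1, h2⟩
  · rintro ⟨l, h1, h2⟩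
    exact ⟨l, ⟨h1, congrArg Prod.fst h2⟩, h2⟩

theorem notMem_shadow {u : Word} {x : ℕ} (h : ∀ l ∈ u, l.1 ≠ x) (s : Bool) :
    (x, s) ∉ shadow u := by
  simp only [shadow, List.mem_map, not_exists, not_and]
  intro l hl he
  exact h l hl (congrArg Prod.fst he)

/-- shadow of the top pair -/
def sT (a b : ℕ) (t α β : Bool) : Shadow := if t then [(a, α), (b, β)] else [(b, β), (a, α)]

/-- shadow of the bottom pair -/
def sB (b c : ℕ) (d β γ : Bool) : Shadow := if d then [(b, !β), (c, !γ)] else [(c, !γ), (b, !β)]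

/-- shadow of the middle pair -/
def sM (a c : ℕ) (m α γ : Bool) : Shadow := if m then [(a, !α), (c, γ)] else [(c, γ), (a, !α)]

theorem shadow_top (a b : ℕ) (t m d e : Bool) :
    shadow (topPair a b t m d e) = sT a b t ((t == m) == e) ((t == d) == e) := by
  cases t <;> simp [topPair, shadow, sT]

theorem shadow_bot (b c : ℕ) (t m d e : Bool) :
    shadow (botPair b c t m d e) = sB b c d ((t == d) == e) ((m == d) == e) := by
  cases d <;> simp [botPair, shadow, sB]

theorem shadow_mid (a c : ℕ) (t m d e : Bool) :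
    shadow (midPair a c t m d e) = sM a c m ((t == m) == e) ((m == d) == e) := by
  cases m <;> simp [midPair, shadow, sM]

theorem betw_b (a b c : ℕ) (S0 S1 S2 S3 : Shadow) (t m d α β γ : Bool) (hab : a ≠ b)
    (hbc : b ≠ c) (h0 : ∀ x ∈ S0, x.1 ≠ b) (h1 : ∀ x ∈ S1, x.1 ≠ b) :
    between b (S0 ++ sT a b t α β ++ S1 ++ sB b c d β γ ++ S2 ++ sM a c m α γ ++ S3) =
      (if t then [] else [(a, α)]) ++ S1 ++ (if d then [] else [(c, !γ)]) := by
  cases t <;> cases d
  · have := between_eq b S0 ((a, α) :: (S1 ++ [(c, !γ)])) (S2 ++ sM a c m α γ ++ S3) β (!β) h0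
      (by
        intro x hx
        simp only [List.mem_cons, List.mem_append, List.not_mem_nil, or_false] at hx
        rcases hx with rfl | hx | rfl
        · exact hab
        · exact h1 x hx
        · exact Ne.symm hbc)
    simpa [sT, sB] using this
  · have := between_eq b S0 ((a, α) :: S1) ((c, !γ) :: (S2 ++ sM a c m α γ ++ S3)) β (!β) h0
      (by
        intro x hx
        simp only [List.mem_cons] at hx
        rcases hx with rfl | hx
        · exact hab
        · exact h1 x hx)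
    simpa [sT, sB] using this
  · have := between_eq b (S0 ++ [(a, α)]) (S1 ++ [(c, !γ)]) (S2 ++ sM a c m α γ ++ S3) β (!β)
      (by
        intro x hx
        simp only [List.mem_cons, List.mem_append, List.not_mem_nil, or_false] at hx
        rcases hx with hx | rfl
        · exact h0 x hx
        · exact hab)
      (by
        intro x hx
        simp only [List.mem_cons, List.mem_append, List.not_mem_nil, or_false] at hx
        rcases hx with hx | rfl
        · exact h1 x hx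
        · exact Ne.symm hbc)
    simpa [sT, sB] using this
  · have := between_eq b (S0 ++ [(a, α)]) S1 ((c, !γ) :: (S2 ++ sM a c m α γ ++ S3)) β (!β)
      (by
        intro x hx
        simp only [List.mem_cons, List.mem_append, List.not_mem_nil, or_false] at hx
        rcases hx with hx | rfl
        · exact h0 x hx
        · exact hab)
      h1
    simpa [sT, sB] using this

theorem betw_c (a b c : ℕ) (S0 S1 S2 S3 : Shadow) (t m d α β γ : Bool) (hac : a ≠ c)
    (hbc : b ≠ c) (h0 : ∀ x ∈ S0, x.1 ≠ c) (h1 : ∀ x ∈ S1, x.1 ≠ c) (h2 : ∀ x ∈ S2, x.1 ≠ c) :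
    between c (S0 ++ sT a b t α β ++ S1 ++ sB b c d β γ ++ S2 ++ sM a c m α γ ++ S3) =
      (if d then [] else [(b, !β)]) ++ S2 ++ (if m then [(a, !α)] else []) := by
  have hP : ∀ x ∈ S0 ++ sT a b t α β ++ S1, x.1 ≠ c := by
    intro x hx
    simp only [List.mem_append] at hx
    rcases hx with (hx | hx) | hx
    · exact h0 x hx
    · cases t <;> simp [sT] at hx <;> rcases hx with rfl | rfl <;> assumption
    · exact h1 x hx
  have hQ : ∀ x ∈ S2 ++ (if m then [(a, !α)] else []), x.1 ≠ c := by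
    intro x hx
    rcases List.mem_append.1 hx with hx | hx
    · exact h2 x hx
    · cases m
      · simp at hx
      · simp at hx
        subst hx
        exact hac
  cases d
  · have := between_eq c (S0 ++ sT a b t α β ++ S1) ((b, !β) :: (S2 ++ (if m then [(a, !α)] else [])))
      ((if m then [] else [(a, !α)]) ++ S3) (!γ) γ hP
      (by
        intro x hx
        rcases List.mem_cons.1 hx with rfl | hx
        · exact hbc
        · exact hQ x hx)
    cases m <;> simpa [sB, sM] using this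
  · have := between_eq c (S0 ++ sT a b t α β ++ S1 ++ [(b, !β)]) (S2 ++ (if m then [(a, !α)] else []))
      ((if m then [] else [(a, !α)]) ++ S3) (!γ) γ
      (by
        intro x hx
        rcases List.mem_append.1 hx with hx | hx
        · exact hP x hx
        · simp at hx
          subst hx
          exact hbc)
      hQ
    cases m <;> simpa [sB, sM] using this

/-- consequences of the Gauss condition -/
theorem gauss_conseq (u₀ u₁ u₂ u₃ : Word) (a b c : ℕ) (t m d e : Bool)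
    (hg : IsGauss (u₀ ++ topPair a b t m d e ++ u₁ ++ botPair b c t m d e ++ u₂ ++
      midPair a c t m d e ++ u₃)) :
    a ≠ b ∧ a ≠ c ∧ b ≠ c ∧ a ∉ labels (u₀ ++ u₁ ++ u₂ ++ u₃) ∧
    b ∉ labels (u₀ ++ u₁ ++ u₂ ++ u₃) ∧ c ∉ labels (u₀ ++ u₁ ++ u₂ ++ u₃) ∧
    ∀ x ∈ labels (u₀ ++ u₁ ++ u₂ ++ u₃), ∃ y : Letter,
      sub {x} u₀ ++ sub {x} u₁ ++ sub {x} u₂ ++ sub {x} u₃ = [y, bar y] := by
  have hlen : ∀ x ∈ labels (u₀ ++ topPair a b t m d e ++ u₁ ++ botPair b c t m d e ++ u₂ ++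
      midPair a c t m d e ++ u₃), (sub {x} (u₀ ++ u₁ ++ u₂ ++ u₃)).length +
      (2 * (if a = x then 1 else 0) + 2 * (if b = x then 1 else 0) +
        2 * (if c = x then 1 else 0)) = 2 := by
    intro x hx
    obtain ⟨l, hl⟩ := hg x hx
    have h2 := congrArg List.length hl
    simp only [sub_append, List.length_append, len_top, len_mid, len_bot] at h2
    simp only [sub_append, List.length_append]
    simp only [List.length_cons, List.length_nil] at h2
    omega
  have hfst : ∀ x : ℕ, (a = x ∨ b = x ∨ c = x ∨ x ∈ labels (u₀ ++ u₁ ++ u₂ ++ u₃)) →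
      x ∈ labels (u₀ ++ topPair a b t m d e ++ u₁ ++ botPair b c t m d e ++ u₂ ++
      midPair a c t m d e ++ u₃) := by
    intro x hx
    simp only [labels_append, mem_union] at hx ⊢
    have hT : (a = x ∨ b = x) → x ∈ labels (topPair a b t m d e) := by
      intro h
      cases t <;> rcases h with rfl | rfl <;> simp [topPair, labels]
    have hB : (c = x) → x ∈ labels (botPair b c t m d e) := by
      intro h
      cases d <;> subst h <;> simp [botPair, labels]
    tauto
  have hnil : ∀ x, (sub {x} (u₀ ++ u₁ ++ u₂ ++ u₃)).length = 0 →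
      x ∉ labels (u₀ ++ u₁ ++ u₂ ++ u₃) := by
    intro x hx hm
    obtain ⟨l, h1, h2⟩ := mem_labels.1 hm
    have h3 : l ∈ sub {x} (u₀ ++ u₁ ++ u₂ ++ u₃) := mem_sub.2 ⟨h1, by simp [h2]⟩
    rw [List.length_eq_zero_iff.1 hx] at h3
    exact absurd h3 List.not_mem_nil
  have ha := hlen a (hfst a (Or.inl rfl))
  have hb := hlen b (hfst b (Or.inr (Or.inl rfl)))
  have hc := hlen c (hfst c (Or.inr (Or.inr (Or.inl rfl))))
  have hab : a ≠ b := by
    rintro rfl
    simp at ha
    omega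
  have hac : a ≠ c := by
    rintro rfl
    simp at ha
    omega
  have hbc : b ≠ c := by
    rintro rfl
    simp at hb
    omega
  have ha' : a ∉ labels (u₀ ++ u₁ ++ u₂ ++ u₃) := by
    refine hnil a ?_
    rw [if_pos rfl, if_neg (Ne.symm hab), if_neg (Ne.symm hac)] at ha
    omega
  have hb' : b ∉ labels (u₀ ++ u₁ ++ u₂ ++ u₃) := by
    refine hnil b ?_
    rw [if_pos rfl, if_neg hab, if_neg (Ne.symm hbc)] at hb
    omega
  have hc' : c ∉ labels (u₀ ++ u₁ ++ u₂ ++ u₃) := by
    refine hnil c ?_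
    rw [if_pos rfl, if_neg hac, if_neg hbc] at hc
    omega
  refine ⟨hab, hac, hbc, ha', hb', hc', fun x hx => ?_⟩
  have hxa : a ≠ x := fun h => ha' (h ▸ hx)
  have hxb : b ≠ x := fun h => hb' (h ▸ hx)
  have hxc : c ≠ x := fun h => hc' (h ▸ hx)
  obtain ⟨y, hy⟩ := hg x (hfst x (Or.inr (Or.inr (Or.inr hx))))
  refine ⟨y, ?_⟩
  have e1 : sub {x} (topPair a b t m d e) = [] := by
    rw [← List.length_eq_zero_iff, len_top, if_neg hxa, if_neg hxb]
  have e2 : sub {x} (botPair b c t m d e) = [] := by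
    rw [← List.length_eq_zero_iff, len_bot, if_neg hxb, if_neg hxc]
  have e3 : sub {x} (midPair a c t m d e) = [] := by
    rw [← List.length_eq_zero_iff, len_mid, if_neg hxa, if_neg hxc]
  simp only [sub_append, e1, e2, e3, List.append_nil] at hy
  simpa only [List.append_nil] using hy

theorem sum_shadow (u : Word) (g : ℕ × Bool → ℤ) :
    ((shadow u).map g).sum = (u.map fun l => g (pr l)).sum := by
  rw [shadow_eq, List.map_map]
  rfl

theorem sum_Qc (S2 : Shadow) (y z : ℕ × Bool) (d m : Bool) :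
    (((if d then [] else [y]) ++ S2 ++ (if m then [z] else [])).map eps).sum =
      (if d = true then 0 else eps y) + (S2.map eps).sum + (if m = true then eps z else 0) := by
  cases d <;> cases m <;> simp [add_assoc]

/-- **PREL**. -/
theorem prel : PRelStmt := by
  intro u₀ u₁ u₂ u₃ a b c t m d e hg hp
  obtain ⟨hab, hac, hbc, ha, hb, hc, hL⟩ := gauss_conseq u₀ u₁ u₂ u₃ a b c t m d e hg
  set Λ := labels (u₀ ++ u₁ ++ u₂ ++ u₃) with hΛ
  have hsub : ∀ i ∈ [u₀, u₁, u₂, u₃], labels i ⊆ Λ := by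
    intro i hi
    simp only [List.mem_cons, List.not_mem_nil, or_false] at hi
    rw [hΛ]
    simp only [labels_append]
    intro x hx
    simp only [mem_union]
    rcases hi with rfl | rfl | rfl | rfl <;> tauto
  have h0 := hsub u₀ (by simp)
  have h1 := hsub u₁ (by simp)
  have h2 := hsub u₂ (by simp)
  have h3 := hsub u₃ (by simp)
  have hne : ∀ z, z ∉ Λ → ∀ u, labels u ⊆ Λ → ∀ l ∈ u, l.1 ≠ z := by
    intro z hz u hu l hl h
    exact hz (hu (mem_labels.2 ⟨l, hl, h⟩))
  have hneS : ∀ z, z ∉ Λ → ∀ u, labels u ⊆ Λ → ∀ x ∈ shadow u, x.1 ≠ z := by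
    intro z hz u hu x hx
    rw [shadow_eq, List.mem_map] at hx
    obtain ⟨l, hl, rfl⟩ := hx
    exact hne z hz u hu l hl
  set α := ((t == m) == e) with hα
  set β := ((t == d) == e) with hβ
  set γ := ((m == d) == e) with hγ
  have hsh : shadow (u₀ ++ topPair a b t m d e ++ u₁ ++ botPair b c t m d e ++ u₂ ++
      midPair a c t m d e ++ u₃) = shadow u₀ ++ sT a b t α β ++ shadow u₁ ++ sB b c d β γ ++
      shadow u₂ ++ sM a c m α γ ++ shadow u₃ := by
    simp only [shadow_append, shadow_top, shadow_bot, shadow_mid]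
    rfl
  rw [hsh] at hp
  have hQb := betw_b a b c (shadow u₀) (shadow u₁) (shadow u₂) (shadow u₃) t m d α β γ hab hbc
    (hneS b hb u₀ h0) (hneS b hb u₁ h1)
  have hQc := betw_c a b c (shadow u₀) (shadow u₁) (shadow u₂) (shadow u₃) t m d α β γ hac hbc
    (hneS c hc u₀ h0) (hneS c hc u₁ h1) (hneS c hc u₂ h2)
  have hC := hp.1 c
  have hD := hp.2 b c
  rw [hQc] at hC
  -- first relation
  have hE2 : ((shadow u₂).map eps).sum = ∑ x ∈ Λ, (J (sub {x} u₂) (sub {x} u₀) +
      J (sub {x} u₂) (sub {x} u₁) + J (sub {x} u₂) (sub {x} u₃)) := by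
    rw [sum_shadow, sum_labels _ u₂ Λ h2]
    refine sum_congr rfl fun x hx => ?_
    obtain ⟨y, hy⟩ := hL x hx
    exact eps_slot hy
  -- second relation
  set v := shadow u₀ ++ sT a b t α β ++ shadow u₁ ++ sB b c d β γ ++
      shadow u₂ ++ sM a c m α γ ++ shadow u₃ with hv
  have hwt : ∀ l : Letter, l.1 ∈ Λ → eps (pr l) * wt b v (pr l) * wt c v ((pr l).1, !(pr l).2) =
      eps (pr l) * (if pr l ∈ shadow u₁ then 2 else 0) *
        (if (l.1, !l.2.1) ∈ shadow u₂ then 2 else 0) := by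
    intro l hl
    have n1 : l.1 ≠ a := fun h => ha (h ▸ hl)
    have n2 : l.1 ≠ b := fun h => hb (h ▸ hl)
    have n3 : l.1 ≠ c := fun h => hc (h ▸ hl)
    have w1 : wt b v (pr l) = if pr l ∈ shadow u₁ then 2 else 0 := by
      unfold wt
      rw [if_neg (show (pr l).1 ≠ b from n2), hQb]
      have : (pr l ∈ (if t then [] else [(a, α)]) ++ shadow u₁ ++ (if d then [] else [(c, !γ)])) ↔
          pr l ∈ shadow u₁ := by
        cases t <;> cases d <;> simp [pr, n1, n3]
      simp only [this]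
    have w2 : wt c v ((pr l).1, !(pr l).2) = if (l.1, !l.2.1) ∈ shadow u₂ then 2 else 0 := by
      unfold wt
      rw [if_neg (show (pr l).1 ≠ c from n3), hQc]
      have : (((pr l).1, !(pr l).2) ∈ (if d then [] else [(b, !β)]) ++ shadow u₂ ++
          (if m then [(a, !α)] else [])) ↔ (l.1, !l.2.1) ∈ shadow u₂ := by
        cases m <;> cases d <;> simp [pr, n1, n2]
      simp only [this]
    rw [w1, w2]
  have hU : ((u₀ ++ u₁ ++ u₂ ++ u₃).map fun l => eps (pr l) * wt b v (pr l) *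
      wt c v ((pr l).1, !(pr l).2)).sum = -4 * ∑ x ∈ Λ, J (sub {x} u₂) (sub {x} u₁) := by
    rw [sum_labels _ _ Λ (le_of_eq hΛ.symm), mul_sum]
    refine sum_congr rfl fun x hx => ?_
    obtain ⟨y, hy⟩ := hL x hx
    rw [← wt_slot hy]
    simp only [sub_append]
    refine congrArg List.sum (List.map_congr_left fun l hl => ?_)
    have hlx : l.1 = x := by
      simp only [← sub_append] at hl
      have := (mem_sub.1 hl).2
      simpa using this
    rw [hwt l (hlx ▸ hx)]
    obtain ⟨n, s, o⟩ := l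
    simp only at hlx
    subst hlx
    simp only [pr, mem_shadow_sub]
    by_cases h5 : (n, s) ∈ shadow u₁ <;> by_cases h6 : (n, !s) ∈ shadow u₂ <;>
      simp only [h5, h6, if_true, if_false]
  -- the weights at the three crossings
  have na1 : ∀ s, (a, s) ∉ shadow u₁ := fun s => notMem_shadow (hne a ha u₁ h1) s
  have na2 : ∀ s, (a, s) ∉ shadow u₂ := fun s => notMem_shadow (hne a ha u₂ h2) s
  have nb2 : ∀ s, (b, s) ∉ shadow u₂ := fun s => notMem_shadow (hne b hb u₂ h2) s
  have nc1 : ∀ s, (c, s) ∉ shadow u₁ := fun s => notMem_shadow (hne c hc u₁ h1) s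
  have wba : ∀ s, wt b v (a, s) = if t = false ∧ s = α then 2 else 0 := by
    intro s
    unfold wt
    rw [if_neg (show (a, s).1 ≠ b from hab), hQb]
    have := na1 s
    cases t <;> cases d <;> simp [this, hac]
  have wca : ∀ s, wt c v (a, s) = if m = true ∧ s = !α then 2 else 0 := by
    intro s
    unfold wt
    rw [if_neg (show (a, s).1 ≠ c from hac), hQc]
    have := na2 s
    cases m <;> cases d <;> simp [this, hab]
  have wbb : ∀ s, wt b v (b, s) = 1 := fun s => by unfold wt; rw [if_pos rfl]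
  have wcb : ∀ s, wt c v (b, s) = if d = false ∧ s = !β then 2 else 0 := by
    intro s
    unfold wt
    rw [if_neg (show (b, s).1 ≠ c from hbc), hQc]
    have := nb2 s
    cases m <;> cases d <;> simp [this, Ne.symm hab]
  have wcc : ∀ s, wt c v (c, s) = 1 := fun s => by unfold wt; rw [if_pos rfl]
  have wbc : ∀ s, wt b v (c, s) = if d = false ∧ s = !γ then 2 else 0 := by
    intro s
    unfold wt
    rw [if_neg (show (c, s).1 ≠ b from Ne.symm hbc), hQb]
    have := nc1 s
    cases t <;> cases d <;> simp [this, Ne.symm hac]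
  have hTs : ((sT a b t α β).map fun x => eps x * wt b v x * wt c v (x.1, !x.2)).sum =
      (if t = false ∧ m = true then 4 * eps (a, α) else 0) +
        (if d = false then 2 * eps (b, β) else 0) := by
    cases t <;> cases m <;> cases d <;> simp [sT, wba, wca, wbb, wcb] <;> ring
  have hBs : ((sB b c d β γ).map fun x => eps x * wt b v x * wt c v (x.1, !x.2)).sum =
      (if d = false then 2 * eps (c, !γ) else 0) := by
    cases d <;> simp [sB, wbb, wcb, wcc, wbc] <;> ring
  have hMs : ((sM a c m α γ).map fun x => eps x * wt b v x * wt c v (x.1, !x.2)).sum = 0 := by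
    cases m <;> simp [sM, wba, wca, wcc, wbc]
  have hD2 : (v.map fun x => eps x * wt b v x * wt c v (x.1, !x.2)).sum =
      -4 * ∑ x ∈ Λ, J (sub {x} u₂) (sub {x} u₁) +
        ((if t = false ∧ m = true then 4 * eps (a, α) else 0) +
        (if d = false then 2 * eps (b, β) else 0) + (if d = false then 2 * eps (c, !γ) else 0)) := by
    have hS : (v.map fun x => eps x * wt b v x * wt c v (x.1, !x.2)).sum =
        ((shadow u₀).map fun x => eps x * wt b v x * wt c v (x.1, !x.2)).sum +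
        ((sT a b t α β).map fun x => eps x * wt b v x * wt c v (x.1, !x.2)).sum +
        ((shadow u₁).map fun x => eps x * wt b v x * wt c v (x.1, !x.2)).sum +
        ((sB b c d β γ).map fun x => eps x * wt b v x * wt c v (x.1, !x.2)).sum +
        ((shadow u₂).map fun x => eps x * wt b v x * wt c v (x.1, !x.2)).sum +
        ((sM a c m α γ).map fun x => eps x * wt b v x * wt c v (x.1, !x.2)).sum +
        ((shadow u₃).map fun x => eps x * wt b v x * wt c v (x.1, !x.2)).sum := by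
      conv_lhs => arg 1; arg 2; rw [hv]
      simp only [List.map_append, List.sum_append]
    rw [hS, hTs, hBs, hMs, ← hU]
    simp only [sum_shadow, List.map_append, List.sum_append]
    ring
  rw [hD2] at hD
  have hC2 : (if d = true then 0 else eps (b, !β)) + ((shadow u₂).map eps).sum +
      (if m = true then eps (a, !α) else 0) = 0 := by
    have hC3 := hC
    rw [sum_Qc] at hC3
    exact hC3
  rw [hE2] at hC2
  have hsplit : ∑ x ∈ Λ, (J (sub {x} u₂) (sub {x} u₀) + J (sub {x} u₂) (sub {x} u₁) +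
      J (sub {x} u₂) (sub {x} u₃)) = ∑ x ∈ Λ, (J (sub {x} u₂) (sub {x} u₀) +
      J (sub {x} u₂) (sub {x} u₃)) + ∑ x ∈ Λ, J (sub {x} u₂) (sub {x} u₁) := by
    rw [← sum_add_distrib]
    exact sum_congr rfl fun x _ => by ring
  rw [hsplit] at hC2
  generalize ∑ x ∈ Λ, (J (sub {x} u₂) (sub {x} u₀) + J (sub {x} u₂) (sub {x} u₃)) = N at hC2 ⊢
  generalize ∑ x ∈ Λ, J (sub {x} u₂) (sub {x} u₁) = J1 at hC2 hD
  rw [hα, hβ, hγ] at hD
  rw [hα, hβ] at hC2
  clear_value v
  clear hD2 hMs hBs hTs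
  cases t <;> cases m <;> cases d <;> cases e <;> simp [eps, kap, bs] at hC2 hD ⊢ <;> omega

end Pool.Agent.ZOL.H77
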